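import Pool.Agent.H110.R12.Gen
import Pool.Agent.H110.R15.Gen

/-!
# Point sets whose reflexivity is larger than `⌈n / 4⌉`

`ρ(S)` is the least number of reflex vertices of a simple polygon with vertex set `S`, and `ρ(n)` is
the maximum of `ρ(S)` over all sets `S` of `n` points in general position.  It was conjectured that
`ρ(n) = ⌊n / 4⌋`.  For `n ≡ 2 (mod 4)` the classical example (points in convex position and one more
point close to each edge) gives `⌈n / 4⌉` instead, and all known values, those for `n ≤ 10`, are at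
most `⌈n / 4⌉`.

We show `ρ(12) ≥ 4` and `ρ(15) ≥ 5`.  So the formula `⌊n / 4⌋` is false even for `n` divisible by
four, and `⌈n / 4⌉` is not an upper bound either; for `n = 12` and `n = 15` we have `ρ(n) ≥ n / 3`.

The two sets are `Pool.Agent.H110.R12.PL` and `Pool.Agent.H110.R15.PL`.  The lower bounds are
exhaustive searches through all non-crossing cyclic orders with few right turns (in both
orientations), run in the kernel.
-/

namespace Pool.Agent.Results.MP_9bb24e_co.AboveQuarter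

open Pool.Agent.H110 Pool.Agent.H110.Refl Pool.Agent.H110.RMax

/-- There are sets of 12 and of 15 points in general position whose reflexivities are at least 4 and
at least 5.  Hence `ρ(12) ≥ 4`, `ρ(15) ≥ 5`; neither `ρ(n) = ⌊n / 4⌋` nor `ρ(n) ≤ ⌈n / 4⌉` holds for
all `n ≥ 3`. -/
theorem result :
    (∃ S : Finset Pt, S.card = 12 ∧ GeneralPosition S ∧ (∃ v, IsPolygonization S v) ∧
      (∀ v, IsPolygonization S v → 4 ≤ reflexCount S.card v) ∧ 4 ≤ rho S) ∧
    (∃ S : Finset Pt, S.card = 15 ∧ GeneralPosition S ∧ (∃ v, IsPolygonization S v) ∧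
      (∀ v, IsPolygonization S v → 5 ≤ reflexCount S.card v) ∧ 5 ≤ rho S) ∧
    (∀ S : Finset Pt, GeneralPosition S → rho S ≤ rhoMax S.card) ∧
    4 ≤ rhoMax 12 ∧ 5 ≤ rhoMax 15 ∧
    (¬ ∀ n, 3 ≤ n → rhoMax n = ⌊(n : ℝ) / 4⌋₊) ∧
    (¬ ∀ n, 3 ≤ n → 4 ∣ n → rhoMax n = n / 4) ∧
    (¬ ∀ n, 3 ≤ n → rhoMax n ≤ ⌈(n : ℝ) / 4⌉₊) := by
  have h12 : 4 ≤ rhoMax 12 := by
    have := le_rhoMax _ R12.genPos
    rw [R12.card_PL] at this
    exact R12.le_rho.trans this
  have h15 : 5 ≤ rhoMax 15 := by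
    have := le_rhoMax _ R15.genPos
    rw [R15.card_PL] at this
    exact R15.le_rho.trans this
  refine ⟨⟨_, R12.card_PL, R12.genPos, R12.exists_poly, fun v hv => le_of_le_rho R12.le_rho v hv, R12.le_rho⟩,
    ⟨_, R15.card_PL, R15.genPos, R15.exists_poly, fun v hv => le_of_le_rho R15.le_rho v hv, R15.le_rho⟩,
    le_rhoMax, h12, h15, ?_, ?_, ?_⟩
  · intro h
    have h1 := h 12 (by norm_num)
    rw [show ((12 : ℕ) : ℝ) / 4 = ((3 : ℕ) : ℝ) by norm_num, Nat.floor_natCast] at h1
    omega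
  · intro h
    have h1 := h 12 (by norm_num) (by norm_num)
    omega
  · intro h
    have h1 := h 15 (by norm_num)
    have h2 : ⌈((15 : ℕ) : ℝ) / 4⌉₊ ≤ 4 := Nat.ceil_le.2 (by norm_num)
    omega

end Pool.Agent.Results.MP_9bb24e_co.AboveQuarter
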